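import Pool.Agent.Lib.MP_0b6b0e_gt.ZB.Defs

set_option autoImplicit false

open Set Filter Topology MeasureTheory

open scoped InnerProductSpace

namespace Pool.Agent.Lib.MP_0b6b0e_gt.ZB.H18

theorem deriv_line {n : ℕ} (i : ℕ) (P : EuclideanSpace ℝ (Fin n) → ℝ)
    (x v : EuclideanSpace ℝ (Fin n)) (hd : DifferentiableAt ℝ P x) (hx : P x ≠ 0) :
    HasDerivAt (fun s : ℝ => ((P (x + s • v))⁻¹) ^ (i + 1))
      (((i + 1 : ℕ) : ℝ) * ((P x)⁻¹) ^ i * (-(fderiv ℝ P x v) / (P x) ^ 2)) 0 := by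
  have h1 : HasDerivAt (fun s : ℝ => x + s • v) v 0 := by
    have := ((hasDerivAt_id (0 : ℝ)).smul_const v).const_add x
    simpa using this
  have h2 : HasDerivAt (fun s : ℝ => P (x + s • v)) (fderiv ℝ P x v) 0 := by
    have h3 : HasFDerivAt P (fderiv ℝ P x) (x + (0 : ℝ) • v) := by
      simpa using hd.hasFDerivAt
    exact h3.comp_hasDerivAt (0 : ℝ) h1
  have h4 : HasDerivAt (fun s : ℝ => (P (x + s • v))⁻¹) (-(fderiv ℝ P x v) / (P x) ^ 2) 0 := by
    have := h2.fun_inv (by simpa using hx)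
    simpa using this
  have h5 := h4.fun_pow (i + 1)
  simpa using h5

theorem lim_line (f : ℝ → ℝ) (f' : ℝ) (hf : HasDerivAt f f' 0) (c : ℝ) (hc : c ≠ 0) (r : ℕ → ℝ)
    (hr : ∀ m, 0 < r m) (h0 : Tendsto r atTop (𝓝 0)) :
    Tendsto (fun m => (f (c * r m) - f 0) / r m) atTop (𝓝 (c * f')) := by
  have h1 : Tendsto (fun m => c * r m) atTop (𝓝[≠] 0) := by
    rw [tendsto_nhdsWithin_iff]
    refine ⟨by simpa using h0.const_mul c, Eventually.of_forall fun m => ?_⟩
    exact mul_ne_zero hc (hr m).ne'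
  have h2 := (hasDerivAt_iff_tendsto_slope.1 hf).comp h1
  have h3 := h2.const_mul c
  refine h3.congr fun m => ?_
  have := (hr m).ne'
  simp only [Function.comp, slope_def_field, sub_zero]
  field_simp

theorem ex (hDV : DVStatement) : EXStatement := by
  intro n i P hP hs x v hx r hr h0
  have hD := hDV.2.1 n P hP hs
  have hpos : 0 < P x := by
    obtain ⟨c, hc, h⟩ := hP.lower
    exact lt_of_lt_of_le (mul_pos hc (norm_pos_iff.2 hx)) (h x)
  have hlim : ∀ c : ℝ, Tendsto (fun m => x + (c * r m) • v) atTop (𝓝 x) := by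
    intro c
    have h1 : Tendsto (fun m => (c * r m) • v) atTop (𝓝 ((c * 0) • v)) :=
      (h0.const_mul c).smul_const v
    simpa using h1.const_add x
  have hp : ∀ m, x + (r m / 2) • v = x + ((1 / 2) * r m) • v := fun m => by
    rw [show r m / 2 = (1 / 2) * r m by ring]
  have hm : ∀ m, x - (r m / 2) • v = x + ((-(1 / 2)) * r m) • v := fun m => by
    rw [show (-(1 / 2)) * r m = -(r m / 2) by ring, neg_smul, sub_eq_add_neg]
  refine ⟨?_, ?_⟩
  · filter_upwards [(hlim (1 / 2)).eventually_ne hx, (hlim (-(1 / 2))).eventually_ne hx] with m h1 h2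
    rw [hp, hm]
    obtain ⟨a1, a2, -⟩ := hD _ h1
    obtain ⟨b1, b2, -⟩ := hD _ h2
    have a3 := a1 (x + ((-(1 / 2)) * r m) • v)
    have b3 := b1 (x + ((1 / 2) * r m) • v)
    have e1 : x + ((-(1 / 2)) * r m) • v = (x + ((1 / 2) * r m) • v) - (r m) • v := by
      rw [add_sub_assoc, ← sub_smul]
      congr 2
      ring
    have e2 : x + ((1 / 2) * r m) • v = (x + ((-(1 / 2)) * r m) • v) + (r m) • v := by
      rw [add_assoc, ← add_smul]
      congr 2
      ring
    have a4 : fderiv ℝ P (x + ((1 / 2) * r m) • v) (x + ((-(1 / 2)) * r m) • v) =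
        P (x + ((1 / 2) * r m) • v) - r m * fderiv ℝ P (x + ((1 / 2) * r m) • v) v := by
      conv_lhs => rw [e1]
      rw [map_sub, a2, map_smul, smul_eq_mul]
    have b4 : fderiv ℝ P (x + ((-(1 / 2)) * r m) • v) (x + ((1 / 2) * r m) • v) =
        P (x + ((-(1 / 2)) * r m) • v) + r m * fderiv ℝ P (x + ((-(1 / 2)) * r m) • v) v := by
      conv_lhs => rw [e2]
      rw [map_add, b2, map_smul, smul_eq_mul]
    rw [a4] at a3
    rw [b4] at b3
    have h3 : 0 ≤ r m * (fderiv ℝ P (x + ((1 / 2) * r m) • v) v -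
        fderiv ℝ P (x + ((-(1 / 2)) * r m) • v) v) := by linarith
    exact nonneg_of_mul_nonneg_right h3 (hr m)
  · have hf := deriv_line i P x v (hs x hx) hpos.ne'
    have l1 := lim_line _ _ hf (1 / 2) (by norm_num) r hr h0
    have l2 := lim_line _ _ hf (-(1 / 2)) (by norm_num) r hr h0
    have c1 : ∀ c : ℝ, Tendsto (fun m => fderiv ℝ P (x + (c * r m) • v) v) atTop
        (𝓝 (fderiv ℝ P x v)) := by
      intro c
      have h1 := ((hD x hx).2.2.tendsto).comp (hlim c)
      have h2 : Continuous fun L : EuclideanSpace ℝ (Fin n) →L[ℝ] ℝ => L v := by fun_prop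
      exact (h2.tendsto _).comp h1
    have l3 := (l1.mul (c1 (1 / 2))).sub (l2.mul (c1 (-(1 / 2))))
    refine (l3.congr fun m => ?_).trans (le_of_eq ?_)
    · rw [hp, hm]
      simp only [zero_smul, add_zero, pw, dl]
      rw [pow_succ, pow_succ, pow_succ]
      ring
    · congr 1
      simp only [pw, dl]
      push_cast
      field_simp
      ring

end Pool.Agent.Lib.MP_0b6b0e_gt.ZB.H18
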